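import Pool.Agent.L0h73.CB.Defs

set_option autoImplicit false

/-! # The boundary of the lines of a corner-free set: the inequality -/

namespace Pool.Agent.L0h73.CB

open Finset Pool.Agent.W856.Corner

variable {n : ℕ}

/-- no corners, in terms of the lines -/
def Free (L : V n → Set (V n)) : Prop :=
  ∀ s y z : V n, y ∈ L s → y + z ∈ L s → y ∈ L (s + z) → z = 0

theorem add_self' (z : V n) : z + z = 0 := by
  funext i
  show z i + z i = 0
  generalize z i = a
  revert a
  decide

theorem lines_free {A : Finset (V n × V n)} (hA : CornerFree A) {L : V n → Set (V n)}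
    (hL : IsLines A L) : Free L := by
  intro s y z h1 h2 h3
  rcases hL with h | h | h
  · rw [h] at h1 h2 h3
    exact hA s y z h1 h2 h3
  · rw [h] at h1 h2 h3
    exact hA y s z h1 h3 h2
  · rw [h] at h1 h2 h3
    simp only [Set.mem_ofPred_eq] at h1 h2 h3
    have e1 : s + (y + z) = s + z + y := by abel
    have e2 : s + y = s + z + y + z := by
      have : s + z + y + z = s + y + (z + z) := by abel
      rw [this, add_self', add_zero]
    rw [e1] at h2
    rw [e2] at h1
    exact hA (s + z + y) y z h3 h2 h1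

open Classical in
/-- the indicator function -/
noncomputable def ind (L : V n → Set (V n)) (s y : V n) : ℝ := if y ∈ L s then 1 else 0

theorem ind_cases (L : V n → Set (V n)) (s y : V n) :
    (ind L s y = 0 ∧ y ∉ L s) ∨ (ind L s y = 1 ∧ y ∈ L s) := by
  unfold ind
  by_cases h : y ∈ L s
  · exact Or.inr ⟨if_pos h, h⟩
  · exact Or.inl ⟨if_neg h, h⟩

/-- the unit vectors -/
def E (i : Fin n) : V n := Pi.single i 1

theorem E_injective : Function.Injective (E (n := n)) := by
  intro i j h
  by_contra hij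
  have h1 := congrFun h i
  have h2 : (i : Fin n) ≠ j := hij
  simp [E, h2] at h1

theorem add_ne {u v : V n} (h : u ≠ v) : u + v ≠ 0 := by
  intro h1
  apply h
  calc u = u + (v + v) := by rw [add_self', add_zero]
    _ = (u + v) + v := by rw [add_assoc]
    _ = v := by rw [h1, zero_add]

theorem sum_shift (F : V n → ℝ) (z : V n) : ∑ y, F (y + z) = ∑ y, F y :=
  Equiv.sum_comp (Equiv.addRight z) F

variable {ι : Type} [Fintype ι] [DecidableEq ι] (D : ι → V n)

/-- the two neighbours -/
theorem upper (hD : Function.Injective D) (L : V n → Set (V n)) (hL : Free L) (s y : V n)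
    (i j : ι) :
    ind L s y * ind L s (y + D i + D j) + ind L s y * ind L (s + D i + D j) y ≤
      ind L s y + if i = j then ind L s y else 0 := by
  rcases ind_cases L s y with ⟨h1, -⟩ | ⟨h1, m1⟩
  · rw [h1]
    split_ifs <;> norm_num
  · by_cases hij : i = j
    · rw [if_pos hij, h1]
      rcases ind_cases L s (y + D i + D j) with ⟨h2, -⟩ | ⟨h2, -⟩ <;>
        rcases ind_cases L (s + D i + D j) y with ⟨h3, -⟩ | ⟨h3, -⟩ <;>
        rw [h2, h3] <;> norm_num
    · rw [if_neg hij, h1]
      rcases ind_cases L s (y + D i + D j) with ⟨h2, -⟩ | ⟨h2, m2⟩ <;>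
        rcases ind_cases L (s + D i + D j) y with ⟨h3, -⟩ | ⟨h3, m3⟩
      · rw [h2, h3]; norm_num
      · rw [h2, h3]; norm_num
      · rw [h2, h3]; norm_num
      · exfalso
        rw [add_assoc] at m2 m3
        exact add_ne (fun h => hij (hD h)) (hL s y (D i + D j) m1 m2 m3)

theorem lower (L : V n → Set (V n)) (s y : V n) (i j : ι) :
    ind L s y - ind L s y * (1 - ind L s (y + D i)) -
      ind L s (y + D i) * (1 - ind L s (y + D i + D j)) ≤
      ind L s y * ind L s (y + D i + D j) := by
  rcases ind_cases L s y with ⟨h1, -⟩ | ⟨h1, -⟩ <;>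
    rcases ind_cases L s (y + D i) with ⟨h2, -⟩ | ⟨h2, -⟩ <;>
    rcases ind_cases L s (y + D i + D j) with ⟨h3, -⟩ | ⟨h3, -⟩ <;>
    rw [h1, h2, h3] <;> norm_num

/-- the number of the points -/
noncomputable def size (L : V n → Set (V n)) : ℝ := ∑ s, ∑ y, ind L s y

/-- the size of the boundary -/
noncomputable def bd (L : V n → Set (V n)) : ℝ :=
  ∑ s, ∑ y, ∑ i, ind L s y * (1 - ind L s (y + D i))

theorem sum_lower (L : V n → Set (V n)) :
    (Fintype.card ι : ℝ) * Fintype.card ι * size L - 2 * (Fintype.card ι * bd D L) ≤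
      ∑ s, ∑ y, ∑ i, ∑ j, ind L s y * ind L s (y + D i + D j) := by
  have h1 : ∑ s, ∑ y, ∑ i : ι, ∑ j : ι, (ind L s y - ind L s y * (1 - ind L s (y + D i)) -
      ind L s (y + D i) * (1 - ind L s (y + D i + D j))) ≤
      ∑ s, ∑ y, ∑ i, ∑ j, ind L s y * ind L s (y + D i + D j) :=
    sum_le_sum fun s _ => sum_le_sum fun y _ => sum_le_sum fun i _ => sum_le_sum fun j _ =>
      lower D L s y i j
  refine le_trans (le_of_eq ?_) h1
  simp only [sum_sub_distrib, sum_const, card_univ, nsmul_eq_mul]
  have e1 : ∑ s : V n, ∑ y : V n, (Fintype.card ι : ℝ) * (Fintype.card ι * ind L s y) =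
      Fintype.card ι * Fintype.card ι * size L := by
    unfold size
    simp only [mul_sum]
    apply sum_congr rfl
    intro s _
    apply sum_congr rfl
    intro y _
    ring
  have e2 : ∑ s : V n, ∑ y : V n, ∑ i : ι,
      (Fintype.card ι : ℝ) * (ind L s y * (1 - ind L s (y + D i))) = Fintype.card ι * bd D L := by
    unfold bd
    simp only [mul_sum]
  have e3 : ∑ s : V n, ∑ y : V n, ∑ i : ι, ∑ j : ι,
      ind L s (y + D i) * (1 - ind L s (y + D i + D j)) = Fintype.card ι * bd D L := by
    unfold bd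
    rw [mul_sum]
    apply sum_congr rfl
    intro s _
    rw [sum_comm]
    have e4 : ∀ i : ι, ∑ y : V n, ∑ j : ι,
        ind L s (y + D i) * (1 - ind L s (y + D i + D j)) =
        ∑ y : V n, ∑ j : ι, ind L s y * (1 - ind L s (y + D j)) := fun i =>
      sum_shift (fun y => ∑ j : ι, ind L s y * (1 - ind L s (y + D j))) (D i)
    rw [sum_congr rfl (fun i _ => e4 i), sum_const, card_univ, nsmul_eq_mul]
  rw [e1, e2, e3]
  ring

theorem sum_horizontal (L : V n → Set (V n)) :
    ∑ s, ∑ y, ∑ i, ∑ j, ind L s y * ind L (s + D i + D j) y =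
      ∑ y, ∑ s, (∑ i, ind L (s + D i) y) ^ 2 := by
  rw [sum_comm]
  apply sum_congr rfl
  intro y _
  have h1 : ∀ s : V n, (∑ i, ind L (s + D i) y) ^ 2 =
      ∑ i, ∑ j, ind L (s + D i) y * ind L (s + D j) y := by
    intro s
    rw [sq, sum_mul_sum]
  rw [sum_congr rfl (fun s _ => h1 s), sum_comm, sum_comm (s := (univ : Finset (V n)))]
  apply sum_congr rfl
  intro i _
  rw [← sum_shift (fun s => ∑ j, ind L s y * ind L (s + D i + D j) y) (D i)]
  apply sum_congr rfl
  intro s _
  apply sum_congr rfl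
  intro j _
  have : s + D i + D i = s := by rw [add_assoc, add_self', add_zero]
  rw [this]

theorem cauchy (L : V n → Set (V n)) :
    ((Fintype.card ι : ℝ) * size L) ^ 2 ≤ 4 ^ n * ∑ y, ∑ s, (∑ i, ind L (s + D i) y) ^ 2 := by
  have h1 : ∑ y : V n, ∑ s : V n, ∑ i, ind L (s + D i) y = Fintype.card ι * size L := by
    have h2 : ∀ y : V n, ∑ s : V n, ∑ i, ind L (s + D i) y =
        Fintype.card ι * ∑ s, ind L s y := by
      intro y
      rw [sum_comm]
      have h3 : ∀ i : ι, ∑ s : V n, ind L (s + D i) y = ∑ s, ind L s y := fun i =>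
        sum_shift (fun s => ind L s y) (D i)
      rw [sum_congr rfl (fun i _ => h3 i), sum_const, card_univ, nsmul_eq_mul]
    rw [sum_congr rfl (fun y _ => h2 y), ← mul_sum, sum_comm]
    rfl
  rw [← h1, ← sum_product' (f := fun y s => ∑ i, ind L (s + D i) y),
    ← sum_product' (f := fun y s => (∑ i, ind L (s + D i) y) ^ 2)]
  have h2 := sq_sum_le_card_mul_sum_sq (s := (univ : Finset (V n)) ×ˢ (univ : Finset (V n)))
    (f := fun q => ∑ i, ind L (q.2 + D i) q.1)
  have h3 : (((univ : Finset (V n)) ×ˢ (univ : Finset (V n))).card : ℝ) = 4 ^ n := by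
    rw [card_product, card_univ]
    simp only [Fintype.card_fun, ZMod.card, Fintype.card_fin]
    push_cast
    rw [← mul_pow]
    norm_num
  rw [h3] at h2
  exact h2

/-- the main inequality -/
theorem main_ineq (hD : Function.Injective D) (L : V n → Set (V n)) (hL : Free L) :
    (Fintype.card ι : ℝ) * size L ^ 2 ≤ 4 ^ n * (size L + 2 * bd D L) := by
  have hs0 : 0 ≤ size L := sum_nonneg fun s _ => sum_nonneg fun y _ => by
    rcases ind_cases L s y with ⟨h, -⟩ | ⟨h, -⟩ <;> rw [h]
    norm_num
  have hb0 : 0 ≤ bd D L := sum_nonneg fun s _ => sum_nonneg fun y _ => sum_nonneg fun i _ => by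
    rcases ind_cases L s y with ⟨h, -⟩ | ⟨h, -⟩ <;>
      rcases ind_cases L s (y + D i) with ⟨h', -⟩ | ⟨h', -⟩ <;> rw [h, h'] <;> norm_num
  rcases Nat.eq_zero_or_pos (Fintype.card ι) with hn | hn
  · rw [hn]
    push_cast
    rw [zero_mul]
    positivity
  have hn' : (0 : ℝ) < Fintype.card ι := by exact_mod_cast hn
  have h1 : ∑ s, ∑ y, ∑ i, ∑ j, (ind L s y * ind L s (y + D i + D j) +
      ind L s y * ind L (s + D i + D j) y) ≤
      ∑ s, ∑ y, ∑ i : ι, ∑ j : ι, (ind L s y + if i = j then ind L s y else 0) :=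
    sum_le_sum fun s _ => sum_le_sum fun y _ => sum_le_sum fun i _ => sum_le_sum fun j _ =>
      upper D hD L hL s y i j
  have h2 : ∑ s : V n, ∑ y : V n, ∑ i : ι, ∑ j : ι,
      (ind L s y + if i = j then ind L s y else 0) =
      ((Fintype.card ι : ℝ) * Fintype.card ι + Fintype.card ι) * size L := by
    unfold size
    simp only [sum_add_distrib, sum_ite_eq, mem_univ, if_true, sum_const, card_univ,
      nsmul_eq_mul, ← mul_sum]
    ring
  rw [h2] at h1
  simp only [sum_add_distrib] at h1
  rw [sum_horizontal] at h1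
  have h3 := sum_lower D L
  have h4 := cauchy D L
  have h5 : ∑ y, ∑ s, (∑ i, ind L (s + D i) y) ^ 2 ≤
      Fintype.card ι * (size L + 2 * bd D L) := by
    linarith
  have h6 : ((Fintype.card ι : ℝ) * size L) ^ 2 ≤
      4 ^ n * (Fintype.card ι * (size L + 2 * bd D L)) :=
    h4.trans (mul_le_mul_of_nonneg_left h5 (by positivity))
  have h7 : (Fintype.card ι : ℝ) * (Fintype.card ι * size L ^ 2) ≤
      Fintype.card ι * (4 ^ n * (size L + 2 * bd D L)) := by
    calc (Fintype.card ι : ℝ) * (Fintype.card ι * size L ^ 2) =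
        (Fintype.card ι * size L) ^ 2 := by ring
      _ ≤ _ := h6
      _ = _ := by ring
  exact le_of_mul_le_mul_left h7 hn'

end Pool.Agent.L0h73.CB
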