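import Pool.Agent.W856.CornerDefs

set_option autoImplicit false

/-! # The boundary of the lines of a corner-free set: definitions -/

namespace Pool.Agent.L0h73.CB

open Finset Pool.Agent.W856.Corner

open Classical in
/-- The total influence of a set `S` of points of the cube: the sum over all coordinates `i` of the
probability that exactly one of the points `y` and `y + e i` is in `S`, for a random point `y`. -/
noncomputable def totalInfluence {n : ℕ} (S : Set (V n)) : ℝ :=
  ((univ.filter (fun q : V n × Fin n => ¬ (q.1 ∈ S ↔ q.1 + Pi.single q.2 1 ∈ S))).card : ℝ) / 2 ^ n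

open Classical in
/-- The number of the exits of a family `L` of lines in the directions `D`: the number of the triples
`(s, y, v)` such that `v` is in `D`, the point `y` is in the line `L s`, and the point `y + v` is not in
`L s`. -/
noncomputable def exits {n : ℕ} (L : V n → Set (V n)) (D : Finset (V n)) : ℕ :=
  (univ.filter (fun q : V n × V n × V n =>
    q.2.2 ∈ D ∧ q.2.1 ∈ L q.1 ∧ q.2.1 + q.2.2 ∉ L q.1)).card

/-- The set `S` is unate: for some preferred values `b i` of the coordinates it is closed under
giving a coordinate its preferred value. -/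
def Unate {n : ℕ} (S : Set (V n)) : Prop :=
  ∃ b : V n, ∀ y ∈ S, ∀ i, Function.update y i (b i) ∈ S

/-- The set `S` is given by an inequality `θ < p y` where `p` is a real polynomial of degree at most
`d` in the coordinates (which are read as the real numbers `0` and `1`; so squares of variables are
not needed). -/
def PolySet (d : ℕ) {n : ℕ} (S : Set (V n)) : Prop :=
  ∃ (c : Finset (Fin n) → ℝ) (θ : ℝ), (∀ T : Finset (Fin n), d < T.card → c T = 0) ∧
    ∀ y : V n, y ∈ S ↔ θ < ∑ T : Finset (Fin n), c T * ∏ i ∈ T, (if y i = 1 then (1 : ℝ) else 0)

/-- Whether `y` is in `S` depends only on the question in which of the sets `W j` it is. -/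
def FunctionOf {n k : ℕ} (S : Set (V n)) (W : Fin k → Set (V n)) : Prop :=
  ∀ y y' : V n, (∀ j, y ∈ W j ↔ y' ∈ W j) → (y ∈ S ↔ y' ∈ S)

end Pool.Agent.L0h73.CB
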