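import Pool.Agent.L0h73.CB.Core
import Pool.Agent.L0h73.UN.Infl

set_option autoImplicit false

/-! # The boundary of the lines of a corner-free set: influences -/

namespace Pool.Agent.L0h73.CB

open Finset Pool.Agent.W856.Corner
open Pool.Agent.L0h73.UN (fl fl_apply piv unate_sum poly_sum mpoly)

variable {n : ℕ}

theorem ite_iff {P Q : Prop} [Decidable P] [Decidable Q] (h : P ↔ Q) :
    (if P then (1 : ℝ) else 0) = if Q then (1 : ℝ) else 0 := by
  by_cases hP : P
  · rw [if_pos hP, if_pos (h.1 hP)]
  · rw [if_neg hP, if_neg (fun hQ => hP (h.2 hQ))]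

open Classical in
theorem size_eq {A : Finset (V n × V n)} {L : V n → Set (V n)} (hL : IsLines A L) :
    size L = A.card := by
  have h0 : ∑ p : V n × V n, (if p ∈ A then (1 : ℝ) else 0) = A.card := by
    rw [← sum_filter, sum_const, nsmul_eq_mul, mul_one]
    congr 2
    ext p
    simp
  rw [← h0, Fintype.sum_prod_type]
  unfold size ind
  rcases hL with h | h | h
  · apply sum_congr rfl
    intro s _
    apply sum_congr rfl
    intro y _
    exact ite_iff (by rw [h]; rfl)
  · rw [sum_comm]
    apply sum_congr rfl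
    intro s _
    apply sum_congr rfl
    intro y _
    exact ite_iff (by rw [h]; rfl)
  · rw [sum_comm]
    rw [sum_comm (f := fun x y => if (x, y) ∈ A then (1 : ℝ) else 0)]
    apply sum_congr rfl
    intro y _
    rw [← sum_shift (fun x => if (x, y) ∈ A then (1 : ℝ) else 0) y]
    apply sum_congr rfl
    intro s _
    exact ite_iff (by rw [h]; rfl)

open Classical in
/-- the number of the pairs -/
noncomputable def cnt (S : Set (V n)) : ℕ :=
  (univ.filter (fun q : V n × Fin n => ¬ (q.1 ∈ S ↔ q.1 + Pi.single q.2 1 ∈ S))).card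

theorem cnt_eq (S : Set (V n)) : totalInfluence S * 2 ^ n = cnt S := by
  unfold totalInfluence cnt
  field_simp

open Classical in
theorem cnt_sum (S : Set (V n)) : (cnt S : ℝ) =
    ∑ y : V n, ∑ i : Fin n, if ¬ (y ∈ S ↔ y + E i ∈ S) then (1 : ℝ) else 0 := by
  unfold cnt
  rw [card_filter, Fintype.sum_prod_type]
  push_cast
  rfl

theorem bd_eq (L : V n → Set (V n)) : 2 * bd E L = ∑ s, (cnt (L s) : ℝ) := by
  classical
  unfold bd
  rw [mul_sum]
  apply sum_congr rfl
  intro s _
  rw [cnt_sum, two_mul]
  have h1 : ∑ y : V n, ∑ i : Fin n, ind L s y * (1 - ind L s (y + E i)) =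
      ∑ y : V n, ∑ i : Fin n, ind L s (y + E i) * (1 - ind L s y) := by
    rw [sum_comm, sum_comm (f := fun y i => ind L s (y + E i) * (1 - ind L s y))]
    apply sum_congr rfl
    intro i _
    rw [← sum_shift (fun y => ind L s y * (1 - ind L s (y + E i))) (E i)]
    apply sum_congr rfl
    intro y _
    have : y + E i + E i = y := by rw [add_assoc, add_self', add_zero]
    rw [this]
  nth_rewrite 2 [h1]
  rw [← sum_add_distrib]
  apply sum_congr rfl
  intro y _
  rw [← sum_add_distrib]
  apply sum_congr rfl
  intro i _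
  rcases ind_cases L s y with ⟨h2, m2⟩ | ⟨h2, m2⟩ <;>
    rcases ind_cases L s (y + E i) with ⟨h3, m3⟩ | ⟨h3, m3⟩ <;>
    rw [h2, h3] <;> simp [m2, m3]

open Classical in
/-- the inequality for all directions -/
theorem all_directions {A : Finset (V n × V n)} (hA : CornerFree A) {L : V n → Set (V n)}
    (hL : IsLines A L) (D : Finset (V n)) :
    (D.card : ℝ) * (A.card : ℝ) ^ 2 ≤ 4 ^ n * (A.card + 2 * exits L D) := by
  have h := main_ineq (fun v : {v // v ∈ D} => (v : V n)) Subtype.val_injective L
    (lines_free hA hL)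
  rw [size_eq hL, Fintype.card_coe] at h
  have h1 : bd (fun v : {v // v ∈ D} => (v : V n)) L = exits L D := by
    unfold bd exits
    rw [card_filter, Fintype.sum_prod_type]
    push_cast
    apply sum_congr rfl
    intro s _
    rw [Fintype.sum_prod_type]
    apply sum_congr rfl
    intro y _
    rw [sum_coe_sort D (fun v => ind L s y * (1 - ind L s (y + v))),
      ← sum_filter_add_sum_filter_not (univ : Finset (V n)) (fun v => v ∈ D)]
    have e1 : univ.filter (fun v : V n => v ∈ D) = D := by ext; simp
    have e2 : ∑ v ∈ univ.filter (fun v : V n => ¬ v ∈ D),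
        (if v ∈ D ∧ y ∈ L s ∧ y + v ∉ L s then (1 : ℝ) else 0) = 0 := by
      apply sum_eq_zero
      intro v hv
      rw [if_neg]
      rintro ⟨h3, -⟩
      exact (mem_filter.1 hv).2 h3
    rw [e1, e2, add_zero]
    apply sum_congr rfl
    intro v hv
    rcases ind_cases L s y with ⟨h2, m2⟩ | ⟨h2, m2⟩ <;>
      rcases ind_cases L s (y + v) with ⟨h3, m3⟩ | ⟨h3, m3⟩ <;>
      rw [h2, h3] <;> simp [m2, m3, hv]
  rw [h1] at h
  exact h

/-- the inequality for the total influence -/
theorem first {A : Finset (V n × V n)} (hA : CornerFree A) {L : V n → Set (V n)}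
    (hL : IsLines A L) :
    (n : ℝ) * (A.card : ℝ) ^ 2 ≤ 4 ^ n * (A.card + 2 ^ n * ∑ s, totalInfluence (L s)) := by
  have h := main_ineq E E_injective L (lines_free hA hL)
  rw [size_eq hL, bd_eq, Fintype.card_fin] at h
  have h1 : ∑ s, (cnt (L s) : ℝ) = 2 ^ n * ∑ s, totalInfluence (L s) := by
    rw [mul_sum]
    apply sum_congr rfl
    intro s _
    rw [← cnt_eq]
    ring
  rw [h1] at h
  exact h

/-- the bound for lines of small total influence -/
theorem second (hn : 1 ≤ n) {A : Finset (V n × V n)} (hA : CornerFree A) {L : V n → Set (V n)}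
    (hL : IsLines A L) {I : ℝ} (hI : ∑ s, totalInfluence (L s) ≤ 2 ^ n * I) :
    (A.card : ℝ) ≤ (√(I / n) + 1 / n) * 4 ^ n := by
  have hn' : (1 : ℝ) ≤ n := by exact_mod_cast hn
  have hn0 : (0 : ℝ) < n := by linarith
  have h := first hA hL
  have h4 : (0 : ℝ) < 4 ^ n := by positivity
  have hI0 : 0 ≤ I := by
    have h1 : 0 ≤ ∑ s, totalInfluence (L s) :=
      sum_nonneg fun s _ => div_nonneg (Nat.cast_nonneg _) (by positivity)
    have h2 : (0 : ℝ) < 2 ^ n := by positivity
    by_contra hneg
    push Not at hneg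
    have := mul_neg_of_pos_of_neg h2 hneg
    linarith
  set a : ℝ := (A.card : ℝ) with ha
  set r : ℝ := √(I / n) with hr
  have hr0 : 0 ≤ r := Real.sqrt_nonneg _
  have hr2 : r * r * n = I := by
    rw [hr, Real.mul_self_sqrt (by positivity)]
    field_simp
  have e4 : (2 : ℝ) ^ n * (2 ^ n * I) = 4 ^ n * I := by
    rw [← mul_assoc, ← mul_pow]
    norm_num
  have h5 : (n : ℝ) * a ^ 2 ≤ 4 ^ n * (a + 4 ^ n * I) := by
    refine h.trans ?_
    apply mul_le_mul_of_nonneg_left _ h4.le
    have := mul_le_mul_of_nonneg_left hI (by positivity : (0 : ℝ) ≤ 2 ^ n)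
    linarith
  by_contra hneg
  push Not at hneg
  -- `a > (r + 1 / n) 4 ^ n`
  have h6 : (r * n + 1) * 4 ^ n < a * n := by
    have := mul_lt_mul_of_pos_right hneg hn0
    calc (r * n + 1) * 4 ^ n = (r + 1 / n) * 4 ^ n * n := by field_simp
      _ < a * n := this
  have h7 : r * n * 4 ^ n < a * n - 4 ^ n := by linarith
  have h8 : 0 ≤ r * n * 4 ^ n := by positivity
  have h9 : r * 4 ^ n < a := by
    have : (r * 4 ^ n) * n < a * n := by nlinarith
    exact lt_of_mul_lt_mul_right this hn0.le
  have h10 : (r * 4 ^ n) * (r * n * 4 ^ n) < a * (a * n - 4 ^ n) := by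
    apply mul_lt_mul'' h9 h7 (by positivity) h8
  have h11 : (r * 4 ^ n) * (r * n * 4 ^ n) = 4 ^ n * (4 ^ n * I) := by
    rw [← hr2]
    ring
  rw [h11] at h10
  nlinarith

/-- functions of sets -/
theorem function_of {k : ℕ} {S : Set (V n)} {W : Fin k → Set (V n)} (h : FunctionOf S W) :
    totalInfluence S ≤ ∑ j, totalInfluence (W j) := by
  classical
  have h1 : cnt S ≤ ∑ j, cnt (W j) := by
    unfold cnt
    refine le_trans (card_le_card ?_) card_biUnion_le
    intro q hq
    rw [mem_filter] at hq
    rw [mem_biUnion]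
    by_contra hne
    apply hq.2
    apply h
    intro j
    by_contra h2
    exact hne ⟨j, mem_univ _, mem_filter.2 ⟨mem_univ _, h2⟩⟩
  have h2 : (0 : ℝ) < 2 ^ n := by positivity
  have h3 : totalInfluence S * 2 ^ n ≤ (∑ j, totalInfluence (W j)) * 2 ^ n := by
    rw [cnt_eq, sum_mul]
    have e : ∀ j, totalInfluence (W j) * 2 ^ n = (cnt (W j) : ℝ) := fun j => cnt_eq _
    rw [sum_congr rfl (fun j _ => e j)]
    exact_mod_cast h1
  exact le_of_mul_le_mul_right h3 h2

/-- the points of the cube -/
def toV : (Fin n → Bool) ≃ V n where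
  toFun t := fun i => if t i then 1 else 0
  invFun y := fun i => decide (y i = 1)
  left_inv t := by
    funext i
    cases h : t i <;> simp [h]
  right_inv y := by
    funext i
    show (if decide (y i = 1) = true then (1 : ZMod 2) else 0) = y i
    generalize y i = a
    revert a
    decide

theorem toV_apply (t : Fin n → Bool) (i : Fin n) : toV t i = if t i then 1 else 0 := rfl

theorem toV_fl (i : Fin n) (t : Fin n → Bool) : toV (fl i t) = toV t + E i := by
  funext j
  rw [Pi.add_apply, toV_apply, toV_apply, fl_apply]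
  by_cases h : j = i
  · subst h
    rw [Function.update_self]
    simp only [E, Pi.single_eq_same]
    cases t j <;> decide
  · rw [Function.update_of_ne h]
    simp [E, h]

open Classical in
theorem cnt_piv (S : Set (V n)) (g : (Fin n → Bool) → Bool)
    (hg : ∀ t, g t = true ↔ toV t ∈ S) : (cnt S : ℝ) = ∑ i ∈ univ, (piv g i : ℝ) := by
  rw [cnt_sum, sum_comm]
  apply sum_congr rfl
  intro i _
  rw [← Equiv.sum_comp toV, Pool.Agent.L0h73.UN.piv_eq]
  apply sum_congr rfl
  intro t _
  have h1 : (¬ (toV t ∈ S ↔ toV t + E i ∈ S)) ↔ g (fl i t) ≠ g t := by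
    rw [← toV_fl, ← hg, ← hg]
    cases g t <;> cases g (fl i t) <;> simp
  by_cases h2 : g (fl i t) ≠ g t
  · rw [if_pos h2, if_pos (h1.2 h2)]
  · rw [if_neg h2, if_neg (fun h => h2 (h1.1 h))]

theorem unate_influence {S : Set (V n)} (hS : Unate S) : totalInfluence S ≤ √(n : ℝ) := by
  classical
  obtain ⟨b, hb⟩ := hS
  have h2 : (0 : ℝ) < 2 ^ n := by positivity
  have h1 := unate_sum (fun t => decide (toV t ∈ S)) univ (fun i => decide (b i = 1)) (by
    intro i t hne
    -- the point with the preferred value is in `S`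
    have h3 : ∀ t : Fin n → Bool, toV t ∈ S → Function.update (toV t) i (b i) ∈ S :=
      fun t h => hb _ h i
    have h4 : Function.update (toV t) i (b i) = toV t ∨
        Function.update (toV t) i (b i) = toV (fl i t) := by
      have h5 : ∀ x : ZMod 2, x = 0 ∨ x = 1 := by decide
      by_cases h6 : b i = toV t i
      · left
        rw [h6]
        exact Function.update_eq_self _ _
      · right
        rw [toV_fl]
        funext j
        by_cases h7 : j = i
        · subst h7
          rw [Function.update_self, Pi.add_apply]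
          simp only [E, Pi.single_eq_same]
          revert h6
          generalize b j = x
          generalize toV t j = y
          revert x y
          decide
        · rw [Function.update_of_ne h7, Pi.add_apply]
          simp [E, h7]
    have h8 : Function.update (toV (fl i t)) i (b i) = Function.update (toV t) i (b i) := by
      funext j
      by_cases h7 : j = i
      · subst h7
        rw [Function.update_self, Function.update_self]
      · rw [Function.update_of_ne h7, Function.update_of_ne h7, toV_fl, Pi.add_apply]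
        simp [E, h7]
    have h9 := h3 t
    have h10 := h3 (fl i t)
    rw [h8] at h10
    have h11 : (b i = 1 ↔ t i = true) ↔ Function.update (toV t) i (b i) = toV t := by
      constructor
      · intro h
        have : b i = toV t i := by
          rw [toV_apply]
          revert h
          generalize b i = x
          cases t i
          · revert x; decide
          · revert x; decide
        rw [this]
        exact Function.update_eq_self _ _
      · intro h
        have h12 := congrFun h i
        rw [Function.update_self, toV_apply] at h12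
        rw [h12]
        cases t i <;> decide
    by_cases hc : b i = 1 ↔ t i = true
    · have h13 := h11.1 hc
      have h14 : toV t ∈ S := by
        by_contra hno
        apply hne
        rw [h13] at h10
        have h15 : ¬ toV (fl i t) ∈ S := fun h => hno (h10 h)
        simp [hno, h15]
      rw [show decide (toV t ∈ S) = true from decide_eq_true h14]
      cases hti : t i
      · have : ¬ b i = 1 := fun h => by simpa [hti] using hc.1 h
        simp [this]
      · have : b i = 1 := hc.2 hti
        simp [this]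
    · have h13 : Function.update (toV t) i (b i) = toV (fl i t) := by
        rcases h4 with h | h
        · exact absurd (h11.2 h) hc
        · exact h
      have h14 : ¬ toV t ∈ S := by
        intro hyes
        apply hne
        have h15 : toV (fl i t) ∈ S := by
          rw [← h13]
          exact h9 hyes
        simp [hyes, h15]
      rw [show decide (toV t ∈ S) = false from decide_eq_false h14]
      cases hti : t i
      · have : b i = 1 := by
          by_contra h
          exact hc (by simp [h, hti])
        simp [this]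
      · have : ¬ b i = 1 := by
          intro h
          exact hc (by simp [h, hti])
        simp [this])
  rw [← cnt_piv S (fun t => decide (toV t ∈ S)) (fun t => decide_eq_true_iff), ← cnt_eq,
    card_univ, Fintype.card_fin] at h1
  have h3 : totalInfluence S * 2 ^ n ≤ √(n : ℝ) * 2 ^ n := by linarith
  exact le_of_mul_le_mul_right h3 h2

theorem poly_influence {d : ℕ} {S : Set (V n)} (hS : PolySet d S) :
    totalInfluence S ≤ 2 * (n : ℝ) ^ (1 - (1 / 2 : ℝ) ^ d) := by
  classical
  obtain ⟨c, θ, hc, h⟩ := hS
  have h2 : (0 : ℝ) < 2 ^ n := by positivity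
  have h1 := poly_sum (fun (_ : Fin n) (b : Bool) => if b then (1 : ℝ) else 0) univ d c hc θ
  rw [← cnt_piv S (fun t => decide (θ < mpoly (fun (_ : Fin n) (b : Bool) =>
    if b then (1 : ℝ) else 0) c t)) (fun t => by
      rw [decide_eq_true_iff, h]
      have e1 : mpoly (fun (_ : Fin n) (b : Bool) => if b then (1 : ℝ) else 0) c t =
          ∑ T : Finset (Fin n), c T * ∏ i ∈ T, (if toV t i = 1 then (1 : ℝ) else 0) := by
        unfold mpoly
        apply sum_congr rfl
        intro T _
        congr 1
        apply prod_congr rfl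
        intro i _
        rw [toV_apply]
        cases t i <;> simp
      rw [e1]), ← cnt_eq, card_univ, Fintype.card_fin] at h1
  have h3 : totalInfluence S * 2 ^ n ≤ (2 * (n : ℝ) ^ (1 - (1 / 2 : ℝ) ^ d)) * 2 ^ n := by
    linarith
  exact le_of_mul_le_mul_right h3 h2

theorem third (hn : 1 ≤ n) {k d : ℕ} (hd : 1 ≤ d) {A : Finset (V n × V n)} (hA : CornerFree A)
    {L : V n → Set (V n)} (hL : IsLines A L)
    (h : ∀ s, ∃ W : Fin k → Set (V n), (∀ j, Unate (W j) ∨ PolySet d (W j)) ∧
      FunctionOf (L s) W) :
    (A.card : ℝ) ≤ (√(2 * k) * (n : ℝ) ^ (-(1 / 2 : ℝ) ^ (d + 1)) + 1 / n) * 4 ^ n := by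
  have hn' : (1 : ℝ) ≤ n := by exact_mod_cast hn
  have hn0 : (0 : ℝ) < n := by linarith
  set J : ℝ := 2 * (n : ℝ) ^ (1 - (1 / 2 : ℝ) ^ d) with hJ
  have hhalf : (1 / 2 : ℝ) ^ d ≤ 1 / 2 := by
    calc (1 / 2 : ℝ) ^ d ≤ (1 / 2 : ℝ) ^ 1 :=
          pow_le_pow_of_le_one (by norm_num) (by norm_num) hd
      _ = 1 / 2 := by norm_num
  have hJ1 : √(n : ℝ) ≤ J := by
    rw [Real.sqrt_eq_rpow, hJ]
    have h1 : (n : ℝ) ^ (1 / 2 : ℝ) ≤ (n : ℝ) ^ (1 - (1 / 2 : ℝ) ^ d) :=
      Real.rpow_le_rpow_of_exponent_le hn' (by linarith)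
    have h2 : (0 : ℝ) ≤ (n : ℝ) ^ (1 - (1 / 2 : ℝ) ^ d) := by positivity
    linarith
  have h1 : ∀ s, totalInfluence (L s) ≤ k * J := by
    intro s
    obtain ⟨W, hW, hF⟩ := h s
    calc totalInfluence (L s) ≤ ∑ j, totalInfluence (W j) := function_of hF
      _ ≤ ∑ _j : Fin k, J := by
          apply sum_le_sum
          intro j _
          rcases hW j with h2 | h2
          · exact (unate_influence h2).trans hJ1
          · exact poly_influence h2
      _ = k * J := by rw [sum_const, card_univ, Fintype.card_fin, nsmul_eq_mul]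
  have h2 : ∑ s, totalInfluence (L s) ≤ 2 ^ n * (k * J) := by
    calc ∑ s, totalInfluence (L s) ≤ ∑ _s : V n, (k * J) := sum_le_sum fun s _ => h1 s
      _ = 2 ^ n * (k * J) := by
          rw [sum_const, card_univ, nsmul_eq_mul]
          simp only [Fintype.card_fun, ZMod.card, Fintype.card_fin]
          push_cast
          rfl
  have h3 := second hn hA hL h2
  have h4 : √(k * J / n) = √(2 * k) * (n : ℝ) ^ (-(1 / 2 : ℝ) ^ (d + 1)) := by
    have e1 : k * J / n = (2 * k) * ((n : ℝ) ^ (-(1 / 2 : ℝ) ^ (d + 1))) ^ 2 := by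
      rw [hJ, ← Real.rpow_natCast ((n : ℝ) ^ (-(1 / 2 : ℝ) ^ (d + 1))) 2, ← Real.rpow_mul hn0.le]
      have e2 : -(1 / 2 : ℝ) ^ (d + 1) * ((2 : ℕ) : ℝ) = (1 - (1 / 2 : ℝ) ^ d) - 1 := by
        rw [pow_succ]
        push_cast
        ring
      rw [e2, Real.rpow_sub hn0 (1 - (1 / 2 : ℝ) ^ d) 1, Real.rpow_one]
      ring
    rw [e1, Real.sqrt_mul (by positivity), Real.sqrt_sq (by positivity)]
  rw [h4] at h3
  exact h3

end Pool.Agent.L0h73.CB
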