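import Pool.Agent.L0h73.CB.Core

set_option autoImplicit false

/-! # Approximate periods of the lines of a corner-free set -/

namespace Pool.Agent.L0h73.CB

open Finset Pool.Agent.W856.Corner

variable {n : ℕ}

open Classical in
/-- the points of all lines -/
noncomputable def pts (L : V n → Set (V n)) : Finset (V n × V n) := univ.filter (fun q => q.2 ∈ L q.1)

open Classical in
/-- the exits in the direction `v` -/
noncomputable def ee (L : V n → Set (V n)) (v : V n) : Finset (V n × V n) :=
  univ.filter (fun q => q.2 ∈ L q.1 ∧ q.2 + v ∉ L q.1)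

theorem mem_pts {L : V n → Set (V n)} {q : V n × V n} : q ∈ pts L ↔ q.2 ∈ L q.1 := by
  simp [pts]

theorem mem_ee {L : V n → Set (V n)} {v : V n} {q : V n × V n} :
    q ∈ ee L v ↔ q.2 ∈ L q.1 ∧ q.2 + v ∉ L q.1 := by
  simp [ee]

theorem ee_add (L : V n → Set (V n)) (u v : V n) :
    (ee L (u + v)).card ≤ (ee L u).card + (ee L v).card := by
  classical
  have h : ee L (u + v) ⊆ ee L u ∪ (ee L v).image (fun q => (q.1, q.2 + u)) := by
    intro q hq
    rw [mem_ee] at hq
    rw [mem_union]
    by_cases hu : q.2 + u ∈ L q.1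
    · right
      rw [mem_image]
      refine ⟨(q.1, q.2 + u), ?_, ?_⟩
      · rw [mem_ee]
        refine ⟨hu, ?_⟩
        have e : (q.1, q.2 + u).2 + v = q.2 + (u + v) := by
          show q.2 + u + v = q.2 + (u + v)
          abel
        rw [e]
        exact hq.2
      · apply Prod.ext
        · rfl
        · show q.2 + u + u = q.2
          rw [add_assoc, add_self', add_zero]
    · left
      rw [mem_ee]
      exact ⟨hq.1, hu⟩
  refine (card_le_card h).trans ((card_union_le _ _).trans ?_)
  exact Nat.add_le_add_left card_image_le _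

theorem ee_zero (L : V n → Set (V n)) : (ee L 0).card = 0 := by
  rw [card_eq_zero, eq_empty_iff_forall_notMem]
  intro q hq
  rw [mem_ee, add_zero] at hq
  exact hq.2 hq.1

theorem ee_smul (L : V n → Set (V n)) (c : ZMod 2) (v : V n) :
    (ee L (c • v)).card ≤ (ee L v).card := by
  have hc : c = 0 ∨ c = 1 := by
    revert c
    decide
  rcases hc with h | h
  · rw [h, zero_smul, ee_zero]
    exact Nat.zero_le _
  · rw [h, one_smul]

theorem ee_sum (L : V n → Set (V n)) {ι : Type} (b : Finset ι) (x : ι → V n) (c : ι → ZMod 2) :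
    (ee L (∑ i ∈ b, c i • x i)).card ≤ ∑ i ∈ b, (ee L (x i)).card := by
  classical
  induction b using Finset.induction_on with
  | empty => rw [sum_empty, sum_empty, ee_zero]
  | insert a s ha ih =>
    rw [sum_insert ha, sum_insert ha]
    exact (ee_add L _ _).trans (Nat.add_le_add (ee_smul L _ _) ih)

theorem sum_ee_le (L : V n → Set (V n)) (D : Finset (V n)) :
    ∑ v ∈ D, (ee L v).card ≤ exits L D := by
  classical
  rw [← card_sigma]
  unfold exits
  apply card_le_card_of_injOn (fun p => (p.2.1, p.2.2, p.1))
  · intro p hp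
    simp only [coe_sigma, Set.mem_sigma_iff, mem_coe, mem_ee] at hp
    simp only [coe_filter, mem_univ, true_and, Set.mem_ofPred_eq]
    exact ⟨hp.1, hp.2.1, hp.2.2⟩
  · rintro ⟨v, s, y⟩ _ ⟨v', s', y'⟩ _ h
    simp only [Prod.mk.injEq] at h
    obtain ⟨h1, h2, h3⟩ := h
    subst h1 h2 h3
    rfl

/-- the case of a subspace -/
theorem subspace_bound (L : V n → Set (V n)) (hL : Free L) (U : Submodule (ZMod 2) (V n))
    (hU : ∀ u ∈ U, 6 * (ee L u).card ≤ (pts L).card) (Uf : Finset (V n))
    (hUf : ∀ u, u ∈ Uf ↔ u ∈ U) : (pts L).card * Uf.card ≤ 2 * 4 ^ n := by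
  classical
  let r : V n × V n → V n → Prop := fun q w => q.2 + w ∉ L q.1
  let ex : V n × V n → ℕ := fun q => (Uf.filter (r q)).card
  have hsum : ∑ q ∈ pts L, ex q = ∑ w ∈ Uf, (ee L w).card := by
    have h := sum_card_bipartiteAbove_eq_sum_card_bipartiteBelow (s := pts L) (t := Uf) r
    unfold bipartiteAbove bipartiteBelow at h
    refine Eq.trans h ?_
    apply sum_congr rfl
    intro w _
    congr 1
    ext q
    rw [mem_filter, mem_pts, mem_ee]
  have hsum2 : 6 * ∑ q ∈ pts L, ex q ≤ Uf.card * (pts L).card := by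
    rw [hsum, mul_sum, ← smul_eq_mul, ← sum_const]
    exact sum_le_sum fun w hw => hU w ((hUf w).1 hw)
  set G := (pts L).filter (fun q => 3 * ex q < Uf.card) with hG
  set B := (pts L).filter (fun q => ¬ 3 * ex q < Uf.card) with hB
  have hGB : G.card + B.card = (pts L).card := by
    rw [hG, hB]
    exact card_filter_add_card_filter_not _
  have hUpos : 0 < Uf.card := card_pos.2 ⟨0, (hUf 0).2 U.zero_mem⟩
  have hBle : 2 * B.card ≤ (pts L).card := by
    have h1 : B.card * Uf.card ≤ ∑ q ∈ B, 3 * ex q := by
      rw [← smul_eq_mul, ← sum_const]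
      exact sum_le_sum fun q hq => not_lt.1 (mem_filter.1 hq).2
    have h2 : ∑ q ∈ B, 3 * ex q ≤ ∑ q ∈ pts L, 3 * ex q :=
      sum_le_sum_of_subset (filter_subset _ _)
    rw [← mul_sum (s := pts L)] at h2
    have h3 : 2 * B.card * Uf.card ≤ (pts L).card * Uf.card := by nlinarith
    exact Nat.le_of_mul_le_mul_right h3 hUpos
  have hGle : G.card * Uf.card ≤ 4 ^ n := by
    rw [← card_product]
    have hcard : (univ : Finset (V n × V n)).card = 4 ^ n := by
      rw [card_univ, Fintype.card_prod, Fintype.card_fun, ZMod.card, Fintype.card_fin, ← mul_pow]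
      norm_num
    rw [← hcard]
    apply card_le_card_of_injOn (fun p => (p.1.1 + p.2, p.1.2)) (fun _ _ => mem_coe.2 (mem_univ _))
    rintro ⟨⟨s, y⟩, u⟩ hp ⟨⟨s', y'⟩, u'⟩ hp' h
    simp only [Prod.mk.injEq] at h
    obtain ⟨h1, h2⟩ := h
    subst h2
    have hp1 := mem_product.1 (mem_coe.1 hp)
    have hp1' := mem_product.1 (mem_coe.1 hp')
    have hg := (mem_filter.1 hp1.1).2
    have hg' := (mem_filter.1 hp1'.1).2
    have hu := (hUf u).1 hp1.2
    have hu' := (hUf u').1 hp1'.2
    have hz : u + u' ∈ U := U.add_mem hu hu'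
    have hs : s' = s + (u + u') := by
      have : s + (u + u') = (s + u) + u' := by abel
      rw [this, h1, add_assoc, add_self', add_zero]
    have key : u + u' = 0 := by
      set z := u + u' with hzdef
      by_contra hne
      have h3 : Uf ⊆ (Uf.filter (r (s, y)) ∪ (Uf.filter (r (s, y))).image (fun w => w + z)) ∪
          Uf.filter (r (s', y)) := by
        intro w hw
        by_contra hc
        have c1 : w ∉ Uf.filter (r (s, y)) := fun h => hc (mem_union_left _ (mem_union_left _ h))
        have c2 : ∀ x ∈ Uf.filter (r (s, y)), x + z ≠ w := fun x hx he =>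
          hc (mem_union_left _ (mem_union_right _ (mem_image.2 ⟨x, hx, he⟩)))
        have c3 : w ∉ Uf.filter (r (s', y)) := fun h => hc (mem_union_right _ h)
        have d1 : y + w ∈ L s := by
          by_contra h5
          exact c1 (mem_filter.2 ⟨hw, h5⟩)
        have d3 : y + w ∈ L s' := by
          by_contra h5
          exact c3 (mem_filter.2 ⟨hw, h5⟩)
        have d2 : y + w + z ∈ L s := by
          by_contra h5
          refine c2 (w + z) (mem_filter.2 ⟨(hUf _).2 (U.add_mem ((hUf w).1 hw) hz), ?_⟩) ?_
          · show y + (w + z) ∉ L s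
            rw [← add_assoc]
            exact h5
          · rw [add_assoc, add_self', add_zero]
        rw [hs] at d3
        exact hne (hL s (y + w) z d1 d2 d3)
      have h4 := (card_le_card h3).trans (card_union_le _ _)
      have h5 := card_union_le (Uf.filter (r (s, y))) ((Uf.filter (r (s, y))).image (fun w => w + z))
      have h6 : ((Uf.filter (r (s, y))).image (fun w => w + z)).card ≤ (Uf.filter (r (s, y))).card :=
        card_image_le
      have h7 : 3 * (Uf.filter (r (s, y))).card < Uf.card := hg
      have h8 : 3 * (Uf.filter (r (s', y))).card < Uf.card := hg'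
      omega
    have huu : u = u' := by
      have : u + u' + u' = u' := by rw [key, zero_add]
      rw [add_assoc, add_self', add_zero] at this
      exact this
    rw [key, add_zero] at hs
    rw [hs, huu]
  calc (pts L).card * Uf.card ≤ 2 * G.card * Uf.card := by
        apply Nat.mul_le_mul_right
        omega
    _ ≤ 2 * 4 ^ n := by nlinarith

end Pool.Agent.L0h73.CB
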