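import Pool.Agent.L0h73.CB.Final
import Pool.Agent.L0h73.CB.Span

set_option autoImplicit false

/-! # Approximate periods of the lines of a corner-free set: the theorem -/

namespace Pool.Agent.L0h73.CB

open Finset Pool.Agent.W856.Corner

variable {n : ℕ}

theorem card_pts {A : Finset (V n × V n)} {L : V n → Set (V n)} (hL : IsLines A L) :
    (pts L).card = A.card := by
  have h : ((pts L).card : ℝ) = size L := by
    unfold pts size ind
    rw [card_filter, Fintype.sum_prod_type]
    push_cast
    rfl
  rw [size_eq hL] at h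
  exact_mod_cast h

/-- directions with few exits span a small subspace -/
theorem span_bound {A : Finset (V n × V n)} (hA : CornerFree A) {L : V n → Set (V n)}
    (hL : IsLines A L) (G : Set (V n)) (hGood : ∀ v ∈ G, 6 * n * (ee L v).card ≤ A.card)
    (Uf : Finset (V n)) (hUf : ∀ u, u ∈ Uf ↔ u ∈ Submodule.span (ZMod 2) G) :
    A.card * Uf.card ≤ 2 * 4 ^ n := by
  classical
  rcases Nat.eq_zero_or_pos n with hn | hn
  · subst hn
    have h1 : A.card ≤ 1 := by
      refine (card_le_univ A).trans ?_
      simp
    have h2 : Uf.card ≤ 1 := by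
      refine (card_le_univ Uf).trans ?_
      simp
    calc A.card * Uf.card ≤ 1 * 1 := Nat.mul_le_mul h1 h2
      _ ≤ 2 * 4 ^ 0 := by norm_num
  have hfree := lines_free hA hL
  have hpts := card_pts hL
  have hU : ∀ u ∈ Submodule.span (ZMod 2) G, 6 * (ee L u).card ≤ (pts L).card := by
    intro u hu
    obtain ⟨b, hbG, hspan, hli⟩ := exists_linearIndependent (ZMod 2) G
    have hbfin : b.Finite := Set.toFinite b
    have hu' : u ∈ Submodule.span (ZMod 2) b := by
      rw [hspan]
      exact hu
    have hbcard : hbfin.toFinset.card ≤ n := by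
      have : Fintype b := hbfin.fintype
      have h1 := hli.fintype_card_le_finrank
      rw [Module.finrank_fin_fun] at h1
      rw [← Set.ncard_eq_toFinset_card b hbfin, ← Nat.card_coe_set_eq, Nat.card_eq_fintype_card]
      exact h1
    have hu2 : u ∈ Submodule.span (ZMod 2) (hbfin.toFinset : Set (V n)) := by
      rw [Set.Finite.coe_toFinset]
      exact hu'
    obtain ⟨c, hc⟩ := Submodule.mem_span_finset'.1 hu2
    have h2 : (ee L u).card ≤ ∑ i : hbfin.toFinset, (ee L (i : V n)).card := by
      rw [← hc]
      exact ee_sum L univ (fun i : hbfin.toFinset => (i : V n)) c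
    have h3 : 6 * n * ∑ i : hbfin.toFinset, (ee L (i : V n)).card ≤ n * A.card := by
      rw [mul_sum]
      calc ∑ i : hbfin.toFinset, 6 * n * (ee L (i : V n)).card
          ≤ ∑ i : hbfin.toFinset, A.card := by
            apply sum_le_sum
            intro i _
            have hi : (i : V n) ∈ b := hbfin.mem_toFinset.1 i.2
            exact hGood _ (hbG hi)
        _ = hbfin.toFinset.card * A.card := by
            rw [sum_const, smul_eq_mul, card_univ, Fintype.card_coe]
        _ ≤ n * A.card := Nat.mul_le_mul_right _ hbcard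
    rw [hpts]
    have h4 : n * (6 * (ee L u).card) ≤ n * A.card := by
      refine le_trans ?_ h3
      calc n * (6 * (ee L u).card) = 6 * n * (ee L u).card := by ring
        _ ≤ _ := Nat.mul_le_mul_left _ h2
    exact Nat.le_of_mul_le_mul_left h4 hn
  have hmain := subspace_bound L hfree _ hU Uf hUf
  rw [hpts] at hmain
  exact hmain

theorem ee_le_exits (L : V n → Set (V n)) (v : V n) : (ee L v).card ≤ exits L {v} := by
  have h := sum_ee_le L {v}
  rwa [sum_singleton] at h

/-- the span of the directions with few exits -/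
theorem good_span {A : Finset (V n × V n)} (hA : CornerFree A) {L : V n → Set (V n)}
    (hL : IsLines A L) :
    A.card * Nat.card (Submodule.span (ZMod 2) {v : V n | 6 * n * exits L {v} ≤ A.card}) ≤
      2 * 4 ^ n := by
  classical
  set W := Submodule.span (ZMod 2) {v : V n | 6 * n * exits L {v} ≤ A.card} with hW
  have h := span_bound hA hL {v : V n | 6 * n * exits L {v} ≤ A.card}
    (fun v hv => (Nat.mul_le_mul_left _ (ee_le_exits L v)).trans hv)
    (univ.filter (fun u => u ∈ W)) (fun u => by simp [hW])
  have hc : Nat.card W = (univ.filter (fun u => u ∈ W)).card := by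
    rw [Nat.card_eq_fintype_card, Fintype.card_subtype]
  rw [hc]
  exact h

theorem periods_bound {A : Finset (V n × V n)} (hA : CornerFree A) {L : V n → Set (V n)}
    (hL : IsLines A L) (D : Finset (V n)) (h : 12 * n * exits L D ≤ A.card * D.card) :
    A.card * D.card ≤ 4 * 4 ^ n := by
  classical
  rcases Nat.eq_zero_or_pos A.card with h0 | h0
  · rw [h0, zero_mul]
    exact Nat.zero_le _
  set G := D.filter (fun v => 6 * n * (ee L v).card ≤ A.card) with hG
  set B := D.filter (fun v => ¬ 6 * n * (ee L v).card ≤ A.card) with hB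
  have hGB : G.card + B.card = D.card := by
    rw [hG, hB]
    exact card_filter_add_card_filter_not _
  have hBle : 2 * B.card ≤ D.card := by
    have h1 : B.card * A.card ≤ ∑ v ∈ B, 6 * n * (ee L v).card := by
      rw [← smul_eq_mul, ← sum_const]
      exact sum_le_sum fun q hq => (not_le.1 (mem_filter.1 hq).2).le
    have h2 : ∑ v ∈ B, 6 * n * (ee L v).card ≤ ∑ v ∈ D, 6 * n * (ee L v).card :=
      sum_le_sum_of_subset (filter_subset _ _)
    rw [← mul_sum (s := D)] at h2
    have h3 : 6 * n * ∑ v ∈ D, (ee L v).card ≤ 6 * n * exits L D :=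
      Nat.mul_le_mul_left _ (sum_ee_le L D)
    have h4 : 2 * B.card * A.card ≤ D.card * A.card := by nlinarith
    exact Nat.le_of_mul_le_mul_right h4 h0
  let Uf : Finset (V n) := univ.filter (fun u => u ∈ Submodule.span (ZMod 2) (G : Set (V n)))
  have hUf : ∀ u, u ∈ Uf ↔ u ∈ Submodule.span (ZMod 2) (G : Set (V n)) := fun u => by simp [Uf]
  have hmain := span_bound hA hL (G : Set (V n))
    (fun v hv => (mem_filter.1 (mem_coe.1 hv)).2) Uf hUf
  have hGU : G.card ≤ Uf.card := card_le_card fun v hv =>
    (hUf v).2 (Submodule.subset_span (mem_coe.2 hv))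
  have hDU : D.card ≤ 2 * Uf.card := by omega
  calc A.card * D.card ≤ A.card * (2 * Uf.card) := Nat.mul_le_mul_left _ hDU
    _ = 2 * (A.card * Uf.card) := by ring
    _ ≤ 2 * (2 * 4 ^ n) := Nat.mul_le_mul_left _ hmain
    _ = 4 * 4 ^ n := by ring

end Pool.Agent.L0h73.CB
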